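import Pool.Agent.Lib.TG42C1.Val
import Pool.Agent.Lib.TG_h33.W2

/-!
# TANK G, row C42-1, STEP
-/

set_option autoImplicit false

open scoped Classical

namespace Pool.Agent.TG42C1

open Pool.Agent.TG (Ov ZDim IsMin valg)
open Pool.Agent.TGh33 (Wr DB WrM row)
open Pool.Agent.TGJ

universe u

section Lin

variable {k₀ k : Type u} [Field k₀] [Field k] [Algebra k₀ k] {h r : ℕ}

/-- The kernel of a functional, on a subspace with a given spanning family. -/
theorem ker_span (U : Submodule k (Fin h → k)) (b : Fin r → Fin h → k)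
    (hb : Submodule.span k (Set.range b) = U) (ψ : (Fin h → k) →ₗ[k] k) (i₀ : Fin r)
    (h0 : ψ (b i₀) ≠ 0) :
    Submodule.span k (Set.range fun i => b i - (ψ (b i) / ψ (b i₀)) • b i₀) =
        U ⊓ LinearMap.ker ψ ∧
      Module.finrank k U = Module.finrank k (U ⊓ LinearMap.ker ψ : Submodule k (Fin h → k)) + 1 := by
  have hbU : ∀ i, b i ∈ U := fun i => by
    rw [← hb]
    exact Submodule.subset_span ⟨i, rfl⟩
  constructor
  · apply le_antisymm
    · rw [Submodule.span_le]
      rintro _ ⟨i, rfl⟩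
      refine ⟨sub_mem (hbU i) (Submodule.smul_mem _ _ (hbU i₀)), ?_⟩
      change ψ _ = 0
      rw [map_sub, map_smul, smul_eq_mul, div_mul_cancel₀ _ h0, sub_self]
    · rintro c ⟨hcU, hcψ⟩
      rw [← hb] at hcU
      obtain ⟨a, ha⟩ := (Submodule.mem_span_range_iff_exists_fun k).1 hcU
      have hcψ' : ψ c = 0 := hcψ
      have h1 : ∑ i, a i * (ψ (b i) / ψ (b i₀)) = 0 := by
        rw [← ha, map_sum] at hcψ'
        have h2 : (∑ i, a i * (ψ (b i) / ψ (b i₀))) * ψ (b i₀) = 0 := by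
          rw [Finset.sum_mul, ← hcψ']
          refine Finset.sum_congr rfl fun i _ => ?_
          rw [map_smul, smul_eq_mul, mul_assoc, div_mul_cancel₀ _ h0]
        exact (mul_eq_zero.1 h2).resolve_right h0
      have h3 : c = ∑ i, a i • (b i - (ψ (b i) / ψ (b i₀)) • b i₀) := by
        simp only [smul_sub, Finset.sum_sub_distrib, smul_smul]
        rw [← Finset.sum_smul, h1, zero_smul, sub_zero, ha]
      rw [h3]
      exact sum_mem fun i _ => Submodule.smul_mem _ _ (Submodule.subset_span ⟨i, rfl⟩)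
  · have h1 := LinearMap.finrank_range_add_finrank_ker (ψ.domRestrict U)
    have h2 : LinearMap.range (ψ.domRestrict U) = ⊤ := by
      rw [LinearMap.range_eq_top]
      intro y
      refine ⟨(y / ψ (b i₀)) • ⟨b i₀, hbU i₀⟩, ?_⟩
      change ψ ((y / ψ (b i₀)) • b i₀) = y
      rw [map_smul, smul_eq_mul, div_mul_cancel₀ _ h0]
    rw [h2, finrank_top, Module.finrank_self] at h1
    have h3 : LinearMap.ker (ψ.domRestrict U) =
        (U ⊓ LinearMap.ker ψ).comap U.subtype := by
      ext c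
      rw [LinearMap.mem_ker, Submodule.mem_comap, Submodule.mem_inf]
      exact ⟨fun h => ⟨c.2, h⟩, fun h => h.2⟩
    rw [h3, (Submodule.comapSubtypeEquivOfLe (inf_le_left : U ⊓ LinearMap.ker ψ ≤ U)).finrank_eq]
      at h1
    omega

/-- A subspace defined over `k₀(E)` has a basis over `k₀(E)`. -/
theorem DefOver.exists_basis {E : Finset k} {U : Submodule k (Fin h → k)}
    (hU : DefOver k₀ E U) : ∃ b : Fin (Module.finrank k U) → Fin h → k,
      (∀ i l, b i l ∈ kE k₀ E) ∧ LinearIndependent k b ∧ Submodule.span k (Set.range b) = U := by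
  obtain ⟨f, hf, hspan, hli⟩ :=
    Submodule.exists_fun_fin_finrank_span_eq k {v | v ∈ U ∧ ∀ l, v l ∈ kE k₀ E}
  have hrk : Module.finrank k (Submodule.span k {v | v ∈ U ∧ ∀ l, v l ∈ kE k₀ E}) =
      Module.finrank k U := by
    rw [show Submodule.span k {v | v ∈ U ∧ ∀ l, v l ∈ kE k₀ E} = U from hU]
  refine ⟨fun i => f (Fin.cast hrk.symm i), fun i l => (hf _).2 l,
    hli.comp _ (Fin.cast_injective _), ?_⟩
  have h1 : (Set.range fun i => f (Fin.cast hrk.symm i)) = Set.range f := by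
    ext x
    constructor
    · rintro ⟨i, rfl⟩
      exact ⟨_, rfl⟩
    · rintro ⟨i, rfl⟩
      exact ⟨Fin.cast hrk i, rfl⟩
  rw [h1, hspan]
  exact hU

theorem defOver_of_span {E : Finset k} {U : Submodule k (Fin h → k)} (b : Fin r → Fin h → k)
    (hb : ∀ i l, b i l ∈ kE k₀ E) (hspan : Submodule.span k (Set.range b) = U) :
    DefOver k₀ E U := by
  apply le_antisymm
  · rw [Submodule.span_le]
    exact fun v hv => hv.1
  · rw [← hspan]
    refine Submodule.span_mono ?_
    rintro _ ⟨i, rfl⟩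
    exact ⟨Submodule.subset_span ⟨i, rfl⟩, hb i⟩

theorem kE_mono {E E' : Finset k} (h : E ⊆ E') : kE k₀ E ≤ kE k₀ E' :=
  IntermediateField.adjoin.mono _ _ _ (Finset.coe_subset.2 h)

end Lin

section Wronski

variable {k K : Type u} [Field k] [Field K] [Algebra k K] {n h r : ℕ}

theorem exists_tuple (D : Fin (n + 1) → Derivation k K K) (e : Fin h → K)
    {U : Submodule k (Fin h → k)} (b : Fin r → Fin h → k) (hli : LinearIndependent k b)
    (hb : Submodule.span k (Set.range b) = U) (hW : WNe D e U) :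
    ∃ a : Fin (n + 2) → Fin r, Wr D (fun i => ell e (b (a i))) ≠ 0 := by
  by_contra hcon
  push Not at hcon
  subst hb
  obtain ⟨g, hg, hgW⟩ := hW
  let B := Module.Basis.span hli
  let f : MultilinearMap k (fun _ : Fin (n + 2) => Submodule.span k (Set.range b)) K :=
    (WrM D).compLinearMap fun _ => (ell e).comp (Submodule.subtype _)
  have hf : f = 0 := by
    refine Module.Basis.ext_multilinear (fun _ => B) fun v => ?_
    have h1 : f (fun i => B (v i)) = Wr D (fun i => ell e (b (v i))) := by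
      change WrM D (fun i => ell e ((B (v i) : Submodule.span k (Set.range b)) : Fin h → k)) = _
      rw [TGh33.WrM_apply]
      have h2 : ∀ i, ((B (v i) : Submodule.span k (Set.range b)) : Fin h → k) = b (v i) :=
        fun i => congrArg Subtype.val (Module.Basis.span_apply hli (v i))
      simp only [h2]
    rw [h1, hcon v]
    rfl
  apply hgW
  have h1 : f (fun i => ⟨g i, hg i⟩) = Wr D fun i => ell e (g i) := rfl
  rw [← h1, hf]
  rfl

end Wronski

section Fields

variable {k₀ k K : Type u} [Field k₀] [Field k] [Field K] [Algebra k₀ k] [Algebra k K]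
  [Algebra k₀ K] [IsScalarTower k₀ k K] {n h : ℕ} {D : Fin (n + 1) → Derivation k K K}
  {A : Subalgebra k K} {e : Fin h → K} {K₀ : IntermediateField k₀ K}

theorem algebraMap_mem_KE (K₀ : IntermediateField k₀ K) {E : Finset k} {c : k}
    (hc : c ∈ kE k₀ E) : algebraMap k K c ∈ KE k₀ K₀ E := by
  have h1 : (kE k₀ E).map (IsScalarTower.toAlgHom k₀ k K) ≤ KE k₀ K₀ E := by
    rw [IntermediateField.adjoin_map]
    refine IntermediateField.adjoin.mono _ _ _ ?_
    rintro _ ⟨x, hx, rfl⟩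
    exact Or.inl ⟨x, hx, rfl⟩
  exact h1 ⟨c, hc, rfl⟩

theorem K₀_le_KE (K₀ : IntermediateField k₀ K) (E : Finset k) {a : K} (ha : a ∈ K₀) :
    a ∈ KE k₀ K₀ E := IntermediateField.subset_adjoin _ _ (Or.inr ha)

theorem ell_mem_KE (hB : Base k₀ D A e K₀) {E : Finset k} {c : Fin h → k}
    (hc : ∀ l, c l ∈ kE k₀ E) : ell e c ∈ KE k₀ K₀ E := by
  rw [ell_apply]
  refine sum_mem fun l _ => ?_
  rw [Algebra.smul_def]
  exact mul_mem (algebraMap_mem_KE K₀ (hc l)) (K₀_le_KE K₀ E (hB.mem l))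

theorem D_mem_KE (hB : Base k₀ D A e K₀) {E : Finset k} (j : Fin (n + 1)) {a : K}
    (ha : a ∈ KE k₀ K₀ E) : D j a ∈ KE k₀ K₀ E := by
  have hk₀ : ∀ c : k₀, D j (algebraMap k₀ K c) = 0 := fun c => by
    rw [IsScalarTower.algebraMap_apply k₀ k K, Derivation.map_algebraMap]
  refine IntermediateField.adjoin_induction k₀ (p := fun x _ => D j x ∈ KE k₀ K₀ E) ?_ ?_ ?_ ?_ ?_
    ha
  · rintro x (⟨c, hc, rfl⟩ | hx)
    · rw [Derivation.map_algebraMap]
      exact zero_mem _
    · exact K₀_le_KE K₀ E (hB.der j x hx)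
  · intro c
    rw [hk₀]
    exact zero_mem _
  · intro x y _ _ hx hy
    rw [map_add]
    exact add_mem hx hy
  · intro x hx hDx
    rw [Derivation.leibniz_inv]
    rw [smul_eq_mul]
    exact mul_mem (neg_mem (pow_mem (inv_mem hx) 2)) hDx
  · intro x y hx hy hDx hDy
    rw [Derivation.leibniz, smul_eq_mul, smul_eq_mul]
    exact add_mem (mul_mem hx hDy) (mul_mem hy hDx)

end Fields

section Main

variable {k₀ k K : Type u} [Field k₀] [Field k] [Field K] [Algebra k₀ k] [Algebra k K]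
  [Algebra k₀ K] [IsScalarTower k₀ k K] {n h : ℕ} {D : Fin (n + 1) → Derivation k K K}
  {A : Subalgebra k K} {e : Fin h → K} {K₀ : IntermediateField k₀ K}
  {τ : Fin (n + 1) → Fin h → k} {E : Finset k} {U : Submodule k (Fin h → k)}
  {V : ValuationSubring K}

/-- Case (a): `V` is not trivial on `K₀(E)`. -/
theorem step_a (hB : Base k₀ D A e K₀) (hS : State (k₀ := k₀) τ E U) (hW : WNe D e U)
    (hz : Zero e τ U V) (hn : ¬ ∀ a ∈ KE k₀ K₀ E, a ≠ 0 → V.valuation a = 1) :
    ∃ (E' : Finset k) (U' : Submodule k (Fin h → k)), E ⊆ E' ∧ U' ≤ U ∧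
        State (k₀ := k₀) τ E' U' ∧ Module.finrank k U = Module.finrank k U' + 1 ∧
        frk k₀ E' + 1 ≤ frk k₀ E + (n + 1) := by
  obtain ⟨b, hbk, hli, hspan⟩ := hS.defo.exists_basis
  obtain ⟨a, ha⟩ := exists_tuple D e b hli hspan hW
  have hV := hz.zd
  -- a minimal element among the `ell (b i)`
  let T : Finset K := Finset.univ.image fun i => ell e (b i)
  have hT0 : ∃ x ∈ T, x ≠ 0 := by
    by_contra hcon
    push Not at hcon
    apply ha
    have h1 : ell e (b (a 0)) = 0 := hcon _ (Finset.mem_image_of_mem _ (Finset.mem_univ _))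
    refine Matrix.det_eq_zero_of_row_eq_zero (0 : Fin (n + 2)) fun j => ?_
    change row D (ell e (b (a 0))) j = 0
    rw [h1, map_zero]
    rfl
  obtain ⟨f, hfT, hfm⟩ := TG.exists_isMin_mem hV.ov T hT0
  obtain ⟨i₀, -, rfl⟩ := Finset.mem_image.1 hfT
  have hTU : Submodule.span k (T : Set K) = U.map (ell e) := by
    rw [← hspan, Submodule.map_span]
    congr 1
    rw [Finset.coe_image, Finset.coe_univ, Set.image_univ, ← Set.range_comp]
    rfl
  rw [hTU] at hfm
  -- the functional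
  have hmem : ∀ c : U, ell e (c : Fin h → k) / ell e (b i₀) ∈ V := fun c =>
    hfm.div _ ⟨c, c.2, rfl⟩
  let φ : U →ₗ[k] k :=
    { toFun := fun c => th hV ⟨ell e (c : Fin h → k) / ell e (b i₀), hmem c⟩
      map_add' := fun c c' => by
        rw [← map_add]
        congr 1
        apply Subtype.ext
        change ell e ((c : Fin h → k) + (c' : Fin h → k)) / _ = _ / _ + _ / _
        rw [map_add, add_div]
      map_smul' := fun t c => by
        rw [RingHom.id_apply, ← map_smul]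
        congr 1
        apply Subtype.ext
        change ell e (t • (c : Fin h → k)) / _ = t • (_ / _)
        rw [map_smul, smul_div_assoc] }
  obtain ⟨ψ, hψ⟩ := LinearMap.exists_extend φ
  have hψU : ∀ c : U, ψ (c : Fin h → k) = φ c := fun c => LinearMap.congr_fun hψ c
  have hbU : ∀ i, b i ∈ U := fun i => by
    rw [← hspan]
    exact Submodule.subset_span ⟨i, rfl⟩
  have hψb : ψ (b i₀) = 1 := by
    have h1 := hψU ⟨b i₀, hbU i₀⟩
    rw [h1]
    change th hV ⟨ell e (b i₀) / ell e (b i₀), _⟩ = 1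
    rw [← map_one (th hV)]
    congr 1
    apply Subtype.ext
    exact div_self hfm.ne
  obtain ⟨hsp, hrk⟩ := ker_span U b hspan ψ i₀ (by rw [hψb]; exact one_ne_zero)
  let R : Finset k := Finset.univ.image fun i => ψ (b i)
  have hR : ∀ r ∈ R, ∃ a : valg hV.ov, (a : K) ∈ KE k₀ K₀ E ∧ th hV a = r := by
    intro r hr
    obtain ⟨i, -, rfl⟩ := Finset.mem_image.1 hr
    refine ⟨⟨ell e (b i) / ell e (b i₀), hmem ⟨b i, hbU i⟩⟩, ?_, (hψU ⟨b i, hbU i⟩).symm⟩
    exact div_mem (ell_mem_KE hB (hbk i)) (ell_mem_KE hB (hbk i₀))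
  obtain ⟨h1, h2⟩ := frk_res_le hB hV E R hR
  refine ⟨E ∪ R, U ⊓ LinearMap.ker ψ, Finset.subset_union_left, inf_le_left, ⟨?_, fun i => ?_⟩,
    hrk, ?_⟩
  · refine defOver_of_span _ (fun i l => ?_) hsp
    have hE : ∀ i l, b i l ∈ kE k₀ (E ∪ R) := fun i l =>
      kE_mono Finset.subset_union_left (hbk i l)
    have hRm : ψ (b i) ∈ kE k₀ (E ∪ R) := by
      refine IntermediateField.subset_adjoin _ _ ?_
      rw [Finset.coe_union]
      exact Or.inr (Finset.mem_coe.2 (Finset.mem_image_of_mem _ (Finset.mem_univ i)))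
    rw [hψb, div_one, Pi.sub_apply, Pi.smul_apply, smul_eq_mul]
    exact sub_mem (hE i l) (mul_mem hRm (hE i₀ l))
  · refine ⟨hS.mem i, ?_⟩
    change ψ (τ i) = 0
    rw [hψU ⟨τ i, hS.mem i⟩]
    change th hV ⟨ell e (τ i) / ell e (b i₀), _⟩ = 0
    rw [th_eq_zero_iff]
    refine lt_of_le_of_ne ((V.valuation_le_one_iff _).2 (hmem ⟨τ i, hS.mem i⟩)) fun h3 => ?_
    exact hz.ne i (hfm.of_val ⟨τ i, hS.mem i, rfl⟩ h3)
  · rcases h1.lt_or_eq with h3 | h3
    · omega
    · exact absurd (h2 h3) hn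

/-- Case (b): `V` is trivial on `K₀(E)` and the tuple is not etale. -/
theorem step_b (hB : Base k₀ D A e K₀) (hS : State (k₀ := k₀) τ E U) (hW : WNe D e U)
    (hz : Zero e τ U V) (ht : ∀ a ∈ KE k₀ K₀ E, a ≠ 0 → V.valuation a = 1)
    (hn : V.valuation (Matrix.of fun i j => D j (ell e (τ i))).det ≠ 1) :
    ∃ (E' : Finset k) (U' : Submodule k (Fin h → k)), E ⊆ E' ∧ U' ≤ U ∧
        State (k₀ := k₀) τ E' U' ∧ Module.finrank k U = Module.finrank k U' + 2 ∧
        frk k₀ E' + 1 ≤ frk k₀ E + (n + 1) * 2 := by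
  obtain ⟨b, hbk, hli, hspan⟩ := hS.defo.exists_basis
  obtain ⟨a, ha⟩ := exists_tuple D e b hli hspan hW
  have hV := hz.zd
  have hbU : ∀ i, b i ∈ U := fun i => by
    rw [← hspan]
    exact Submodule.subset_span ⟨i, rfl⟩
  -- everything is in `V`
  have hKV : ∀ x ∈ KE k₀ K₀ E, x ∈ V := by
    intro x hx
    by_cases hx0 : x = 0
    · rw [hx0]; exact V.zero_mem
    · exact (V.valuation_le_one_iff _).1 (ht x hx hx0).le
  have hell : ∀ c : Fin h → k, ell e c ∈ V := by
    intro c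
    rw [ell_apply]
    exact sum_mem fun l _ => hV.ov.smul_mem _ (hKV _ (K₀_le_KE K₀ E (hB.mem l)))
  have hDell : ∀ (j : Fin (n + 1)) (c : Fin h → k), D j (ell e c) ∈ V := by
    intro j c
    rw [ell_apply, map_sum]
    refine sum_mem fun l _ => ?_
    rw [Derivation.map_smul]
    exact hV.ov.smul_mem _ (hKV _ (K₀_le_KE K₀ E (hB.der j _ (hB.mem l))))
  -- the residues
  let M : Matrix (Fin (n + 1)) (Fin (n + 1)) (valg hV.ov) :=
    Matrix.of fun i j => ⟨D j (ell e (τ i)), hDell j _⟩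
  have hM : ((M.det : valg hV.ov) : K) = (Matrix.of fun i j => D j (ell e (τ i))).det := by
    have h1 := ((valg hV.ov).val : valg hV.ov →+* K).map_det M
    refine h1.trans ?_
    rfl
  have hdet : ((th hV : valg hV.ov →+* k).mapMatrix M).det = 0 := by
    rw [← RingHom.map_det]
    change th hV M.det = 0
    by_contra h1
    rw [← Ne, th_ne_zero_iff, hM] at h1
    exact hn h1
  obtain ⟨lam, hlam0, hlam⟩ := Matrix.exists_mulVec_eq_zero_iff.2 hdet
  obtain ⟨j₀, hj₀⟩ : ∃ j, lam j ≠ 0 := by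
    by_contra hcon
    push Not at hcon
    exact hlam0 (funext hcon)
  let mu : Fin (n + 1) → k := fun j => lam j / lam j₀
  have hmu : mu j₀ = 1 := div_self hj₀
  have hmuM : ∀ i, ∑ j, mu j * th hV (M i j) = 0 := by
    intro i
    have h1 := congrFun hlam i
    have h2 : ∑ j, th hV (M i j) * lam j = 0 := h1
    have h3 : ∑ j, mu j * th hV (M i j) = (∑ j, th hV (M i j) * lam j) / lam j₀ := by
      rw [Finset.sum_div]
      refine Finset.sum_congr rfl fun j _ => ?_
      change lam j / lam j₀ * _ = _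
      ring
    rw [h3, h2, zero_div]
  -- the functionals
  let ψ₁ : (Fin h → k) →ₗ[k] k :=
    { toFun := fun c => th hV ⟨ell e c, hell c⟩
      map_add' := fun c c' => by
        rw [← map_add]
        congr 1
        exact Subtype.ext (map_add _ _ _)
      map_smul' := fun t c => by
        rw [RingHom.id_apply, ← map_smul]
        congr 1
        exact Subtype.ext (map_smul _ _ _) }
  let δ : Fin (n + 1) → (Fin h → k) →ₗ[k] k := fun j =>
    { toFun := fun c => th hV ⟨D j (ell e c), hDell j c⟩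
      map_add' := fun c c' => by
        rw [← map_add]
        congr 1
        apply Subtype.ext
        change D j (ell e (c + c')) = D j (ell e c) + D j (ell e c')
        rw [map_add, map_add]
      map_smul' := fun t c => by
        rw [RingHom.id_apply, ← map_smul]
        congr 1
        apply Subtype.ext
        change D j (ell e (t • c)) = t • D j (ell e c)
        rw [map_smul, Derivation.map_smul] }
  let ψ₂ : (Fin h → k) →ₗ[k] k := ∑ j, mu j • δ j
  have hψ₂ : ∀ c, ψ₂ c = ∑ j, mu j * δ j c := by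
    intro c
    simp only [ψ₂, LinearMap.sum_apply, LinearMap.smul_apply, smul_eq_mul]
  -- a basis element not killed by `ψ₁`, and independence
  have hmat : ∀ (α : k) (β : k), (∀ i, α * ψ₁ (b i) + β * ψ₂ (b i) = 0) → α = 0 ∧ β = 0 := by
    intro α β hαβ
    let N : Matrix (Fin (n + 2)) (Fin (n + 2)) (valg hV.ov) :=
      Matrix.of fun i => Fin.cons ⟨ell e (b (a i)), hell _⟩
        fun j => ⟨D j (ell e (b (a i))), hDell j _⟩
    have hN : ((N.det : valg hV.ov) : K) = Wr D fun i => ell e (b (a i)) := by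
      have h1 := ((valg hV.ov).val : valg hV.ov →+* K).map_det N
      refine h1.trans ?_
      rw [TGh33.Wr_def]
      congr 1
      ext i j
      refine Fin.cases rfl (fun j => rfl) j
    have hNu : th hV N.det ≠ 0 := by
      rw [th_ne_zero_iff, hN]
      refine ht _ ?_ ha
      rw [TGh33.Wr_def]
      rw [Matrix.det_apply]
      refine sum_mem fun σ _ => ?_
      rw [Units.smul_def, zsmul_eq_mul]
      refine mul_mem (intCast_mem _ _) (prod_mem fun i _ => ?_)
      change row D (ell e (b (a (σ i)))) i ∈ _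
      refine Fin.cases ?_ (fun j => ?_) i
      · exact ell_mem_KE hB (hbk _)
      · exact D_mem_KE hB j (ell_mem_KE hB (hbk _))
    have hdetN : ((th hV : valg hV.ov →+* k).mapMatrix N).det ≠ 0 := by
      rw [← RingHom.map_det]
      exact hNu
    have hker : ((th hV : valg hV.ov →+* k).mapMatrix N).mulVec
        (Fin.cons α fun j => β * mu j) = 0 := by
      funext i
      have h1 := hαβ (a i)
      rw [hψ₂] at h1
      change ∑ j, th hV (N i j) * (Fin.cons α (fun j => β * mu j) : Fin (n + 2) → k) j = 0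
      rw [Fin.sum_univ_succ]
      simp only [Fin.cons_zero, Fin.cons_succ]
      have h2 : th hV (N i 0) = ψ₁ (b (a i)) := rfl
      have h3 : ∀ j : Fin (n + 1), th hV (N i j.succ) = δ j (b (a i)) := fun j => rfl
      rw [h2, Finset.sum_congr rfl fun j _ => by rw [h3 j]]
      rw [Finset.mul_sum] at h1
      rw [← h1]
      congr 1
      · ring
      · exact Finset.sum_congr rfl fun j _ => by ring
    have hz0 := Matrix.eq_zero_of_mulVec_eq_zero hdetN hker
    constructor
    · exact congrFun hz0 0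
    · have h1 := congrFun hz0 j₀.succ
      rw [Fin.cons_succ, hmu, mul_one] at h1
      exact h1
  obtain ⟨i₀, hi₀⟩ : ∃ i, ψ₁ (b i) ≠ 0 := by
    by_contra hcon
    push Not at hcon
    have h1 := hmat 1 0 fun i => by rw [hcon i]; ring
    exact one_ne_zero h1.1
  obtain ⟨hsp, hrk⟩ := ker_span U b hspan ψ₁ i₀ hi₀
  set b' : Fin (Module.finrank k U) → Fin h → k :=
    fun i => b i - (ψ₁ (b i) / ψ₁ (b i₀)) • b i₀ with hb'
  obtain ⟨i₁, hi₁⟩ : ∃ i, ψ₂ (b' i) ≠ 0 := by
    by_contra hcon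
    push Not at hcon
    have h1 := hmat (-(ψ₂ (b i₀) / ψ₁ (b i₀))) 1 fun i => by
      have h2 := hcon i
      rw [hb'] at h2
      simp only [map_sub, map_smul, smul_eq_mul] at h2
      linear_combination h2
    exact one_ne_zero h1.2
  obtain ⟨hsp', hrk'⟩ := ker_span (U ⊓ LinearMap.ker ψ₁) b' hsp ψ₂ i₁ hi₁
  -- the field
  let R : Finset k := (Finset.univ.image fun i => ψ₁ (b i)) ∪
    Finset.univ.image fun p : Fin (Module.finrank k U) × Fin (n + 1) => δ p.2 (b p.1)
  let Λ : Finset k := (Finset.univ.erase j₀).image mu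
  have hR : ∀ r ∈ R, ∃ a : valg hV.ov, (a : K) ∈ KE k₀ K₀ E ∧ th hV a = r := by
    intro r hr
    rcases Finset.mem_union.1 hr with h1 | h1
    · obtain ⟨i, -, rfl⟩ := Finset.mem_image.1 h1
      exact ⟨⟨ell e (b i), hell _⟩, ell_mem_KE hB (hbk i), rfl⟩
    · obtain ⟨p, -, rfl⟩ := Finset.mem_image.1 h1
      exact ⟨⟨D p.2 (ell e (b p.1)), hDell _ _⟩, D_mem_KE hB p.2 (ell_mem_KE hB (hbk p.1)), rfl⟩
  obtain ⟨h1, -⟩ := frk_res_le hB hV E R hR
  have h2 := frk_union_le_add_card k₀ (E ∪ R) Λ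
  have h3 : Λ.card ≤ n := by
    refine Finset.card_image_le.trans ?_
    rw [Finset.card_erase_of_mem (Finset.mem_univ _), Finset.card_univ, Fintype.card_fin]
    omega
  let E' : Finset k := E ∪ R ∪ Λ
  have hEE' : E ⊆ E' := Finset.subset_union_left.trans Finset.subset_union_left
  have hbE : ∀ i l, b i l ∈ kE k₀ E' := fun i l => kE_mono hEE' (hbk i l)
  have hmemE : ∀ x ∈ E', x ∈ kE k₀ E' := fun x hx =>
    IntermediateField.subset_adjoin _ _ (Finset.mem_coe.2 hx)
  have hψ₁E : ∀ i, ψ₁ (b i) ∈ kE k₀ E' := fun i => hmemE _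
    (Finset.mem_union_left _ (Finset.mem_union_right _ (Finset.mem_union_left _
      (Finset.mem_image_of_mem _ (Finset.mem_univ i)))))
  have hmuE : ∀ j, mu j ∈ kE k₀ E' := by
    intro j
    by_cases hj : j = j₀
    · rw [hj, hmu]; exact one_mem _
    · exact hmemE _ (Finset.mem_union_right _ (Finset.mem_image_of_mem _
        (Finset.mem_erase.2 ⟨hj, Finset.mem_univ _⟩)))
  have hδE : ∀ j i, δ j (b i) ∈ kE k₀ E' := fun j i => hmemE _
    (Finset.mem_union_left _ (Finset.mem_union_right _ (Finset.mem_union_right _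
      (Finset.mem_image_of_mem (fun p : Fin (Module.finrank k U) × Fin (n + 1) =>
        δ p.2 (b p.1)) (Finset.mem_univ (i, j))))))
  have hψ₂E : ∀ i, ψ₂ (b i) ∈ kE k₀ E' := by
    intro i
    rw [hψ₂]
    exact sum_mem fun j _ => mul_mem (hmuE j) (hδE j i)
  have hb'E : ∀ i l, b' i l ∈ kE k₀ E' := by
    intro i l
    change b i l - (ψ₁ (b i) / ψ₁ (b i₀)) * b i₀ l ∈ kE k₀ E'
    exact sub_mem (hbE i l) (mul_mem (div_mem (hψ₁E i) (hψ₁E i₀)) (hbE i₀ l))
  have hψ₂E' : ∀ i, ψ₂ (b' i) ∈ kE k₀ E' := by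
    intro i
    rw [hb']
    simp only [map_sub, map_smul, smul_eq_mul]
    exact sub_mem (hψ₂E i) (mul_mem (div_mem (hψ₁E i) (hψ₁E i₀)) (hψ₂E i₀))
  refine ⟨E', (U ⊓ LinearMap.ker ψ₁) ⊓ LinearMap.ker ψ₂, hEE', inf_le_left.trans inf_le_left,
    ⟨?_, fun i => ⟨⟨hS.mem i, ?_⟩, ?_⟩⟩, by omega, ?_⟩
  · refine defOver_of_span _ (fun i l => ?_) hsp'
    rw [Pi.sub_apply, Pi.smul_apply, smul_eq_mul]
    exact sub_mem (hb'E i l) (mul_mem (div_mem (hψ₂E' i) (hψ₂E' i₁)) (hb'E i₁ l))
  · change th hV ⟨ell e (τ i), _⟩ = 0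
    rw [th_eq_zero_iff]
    refine lt_of_le_of_ne ((V.valuation_le_one_iff _).2 (hell _)) fun h4 => ?_
    refine hz.ne i ⟨⟨τ i, hS.mem i, rfl⟩, ?_, ?_⟩
    · intro h5
      change V.valuation (ell e (τ i)) = 1 at h4
      rw [h5, map_zero] at h4
      exact zero_ne_one h4
    · rintro _ ⟨c, -, rfl⟩
      rw [← V.valuation_le_one_iff, map_div₀]
      change V.valuation (ell e (τ i)) = 1 at h4
      rw [h4, div_one]
      exact (V.valuation_le_one_iff _).2 (hell c)
  · change ψ₂ (τ i) = 0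
    rw [hψ₂]
    exact hmuM i
  · change frk k₀ (E ∪ R ∪ Λ) + 1 ≤ _
    omega

/-- **STEP.** -/
theorem step (k₀ k K : Type u) [Field k₀] [Field k] [Field K] [Algebra k₀ k] [Algebra k K]
    [Algebra k₀ K] [IsScalarTower k₀ k K] : Step k₀ k K := by
  intro n h D A e K₀ hB τ E U hS hW V hz hn
  by_cases ht : ∀ a ∈ KE k₀ K₀ E, a ≠ 0 → V.valuation a = 1
  · have hdet : V.valuation (Matrix.of fun i j => D j (ell e (τ i))).det ≠ 1 := fun hd =>
      hn ⟨ht, hd⟩
    obtain ⟨E', U', h1, h2, h3, h4, h5⟩ := step_b hB hS hW hz ht hdet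
    exact ⟨E', U', 2, h1, h2, h3, by omega, le_rfl, h4, h5⟩
  · obtain ⟨E', U', h1, h2, h3, h4, h5⟩ := step_a hB hS hW hz ht
    exact ⟨E', U', 1, h1, h2, h3, le_rfl, by omega, h4, by omega⟩

end Main

end Pool.Agent.TG42C1
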