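import Pool.Agent.Lib.TG91.Defs
import Pool.Agent.Lib.TGJ.Rank_h91

/-!
# TANK G, row C42-1 (C1), the chain: definitions and statements

`K / k` of transcendence degree `n + 1`, `k₀ ⊆ k` the field of definition, `K₀ ⊆ K` of transcendence
degree at most `n + 1` over `k₀`, `S` the span of `e l ∈ K₀`.
-/

set_option autoImplicit false

namespace Pool.Agent.TG42C1

open Pool.Agent.TG (Ov ZDim IsMin)
open Pool.Agent.TGh33 (Wr DB)
open Pool.Agent.TGJ (frk)
open Pool.Agent.TG1 (Adm Bpf Dat tr)
open Pool.Agent.TG91 (cx ct Nc Reached)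

universe u

section

variable (k₀ : Type u) {k K : Type u} [Field k₀] [Field k] [Field K] [Algebra k₀ k] [Algebra k K]
  [Algebra k₀ K] [IsScalarTower k₀ k K] {n h : ℕ}

/-- The fields of definition. -/
structure Base (D : Fin (n + 1) → Derivation k K K) (A : Subalgebra k K) (e : Fin h → K)
    (K₀ : IntermediateField k₀ K) : Prop where
  li : LinearIndependent k e
  mem : ∀ l, e l ∈ K₀
  der : ∀ i, ∀ a ∈ K₀, D i a ∈ K₀
  gen : A ≤ Algebra.adjoin k (K₀ : Set K)
  rk : ∀ T : Finset K, (∀ a ∈ T, a ∈ K₀) → frk k₀ T ≤ n + 1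

/-- The field `k₀(E)`. -/
abbrev kE (E : Finset k) : IntermediateField k₀ k := IntermediateField.adjoin k₀ (E : Set k)

/-- The subfield `K₀(E)` of `K`. -/
abbrev KE (K₀ : IntermediateField k₀ K) (E : Finset k) : IntermediateField k₀ K :=
  IntermediateField.adjoin k₀ (algebraMap k K '' (E : Set k) ∪ (K₀ : Set K))

/-- The subspace `U` of `k ^ h` is defined over `k₀(E)`. -/
def DefOver (E : Finset k) (U : Submodule k (Fin h → k)) : Prop :=
  Submodule.span k {v | v ∈ U ∧ ∀ l, v l ∈ kE k₀ E} = U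

variable {k₀}

/-- The element of `K` with coordinates `c`. -/
noncomputable def ell (e : Fin h → K) : (Fin h → k) →ₗ[k] K := Fintype.linearCombination k e

theorem ell_apply (e : Fin h → K) (c : Fin h → k) : ell e c = ∑ l, c l • e l := rfl

/-- A state of the chain: `U` is defined over `k₀(E)` and contains the coordinates `τ` of the
translated tuple. -/
structure State (τ : Fin (n + 1) → Fin h → k) (E : Finset k) (U : Submodule k (Fin h → k)) :
    Prop where
  defo : DefOver k₀ E U
  mem : ∀ i, τ i ∈ U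

/-- `V` is a zero of the state. -/
structure Zero (e : Fin h → K) (τ : Fin (n + 1) → Fin h → k) (U : Submodule k (Fin h → k))
    (V : ValuationSubring K) : Prop where
  zd : ZDim k V
  ne : ∀ i, ¬ IsMin V (U.map (ell e)) (ell e (τ i))

/-- The zero `V` is nice: `V` is trivial on `K₀(E)` (generic) and the derivatives of the tuple form
an invertible matrix (etale). -/
structure Nice (D : Fin (n + 1) → Derivation k K K) (e : Fin h → K) (K₀ : IntermediateField k₀ K)
    (τ : Fin (n + 1) → Fin h → k) (E : Finset k) (V : ValuationSubring K) : Prop where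
  triv : ∀ a ∈ KE k₀ K₀ E, a ≠ 0 → V.valuation a = 1
  det : V.valuation (Matrix.of fun i j => D j (ell e (τ i))).det = 1

/-- `W ≠ 0` on `U`. -/
def WNe (D : Fin (n + 1) → Derivation k K K) (e : Fin h → K) (U : Submodule k (Fin h → k)) :
    Prop := ∃ g : Fin (n + 2) → Fin h → k, (∀ i, g i ∈ U) ∧ Wr D (fun i => ell e (g i)) ≠ 0

/-- The coordinates of the translated tuple. -/
def tau (c : Fin (n + 2) × Fin h → k) (η : Fin (n + 1) → k) : Fin (n + 1) → Fin h → k :=
  fun i l => c (i.succ, l) - η i * c (0, l)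

theorem ell_tau (e : Fin h → K) (c : Fin (n + 2) × Fin h → k) (η : Fin (n + 1) → k)
    (i : Fin (n + 1)) : ell e (tau c η i) = tr (cx e c) (ct e c) η i := by
  rw [ell_apply]
  change _ = (∑ l, c (i.succ, l) • e l) - η i • ∑ l, c (0, l) • e l
  rw [Finset.smul_sum, ← Finset.sum_sub_distrib]
  refine Finset.sum_congr rfl fun l _ => ?_
  rw [tau, sub_smul, mul_smul]

end

/-! ### Statements -/

section Statements

/-- STEP (helper90). -/
def Step (k₀ k K : Type u) [Field k₀] [Field k] [Field K] [Algebra k₀ k] [Algebra k K]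
    [Algebra k₀ K] [IsScalarTower k₀ k K] : Prop :=
  ∀ (n h : ℕ) (D : Fin (n + 1) → Derivation k K K) (A : Subalgebra k K) (e : Fin h → K)
    (K₀ : IntermediateField k₀ K), Base k₀ D A e K₀ →
    ∀ (τ : Fin (n + 1) → Fin h → k) (E : Finset k) (U : Submodule k (Fin h → k)),
      State (k₀ := k₀) τ E U → WNe D e U → ∀ V, Zero e τ U V → ¬ Nice D e K₀ τ E V →
      ∃ (E' : Finset k) (U' : Submodule k (Fin h → k)) (r : ℕ), E ⊆ E' ∧ U' ≤ U ∧
        State (k₀ := k₀) τ E' U' ∧ 1 ≤ r ∧ r ≤ 2 ∧ Module.finrank k U = Module.finrank k U' + r ∧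
        frk k₀ E' + 1 ≤ frk k₀ E + (n + 1) * r

/-- CHAIN (helper13), from `Step`. -/
def Chain (k₀ k K : Type u) [Field k₀] [Field k] [Field K] [Algebra k₀ k] [Algebra k K]
    [Algebra k₀ K] [IsScalarTower k₀ k K] : Prop :=
  ∀ (n h : ℕ) (D : Fin (n + 1) → Derivation k K K) (A : Subalgebra k K) (e : Fin h → K)
    (K₀ : IntermediateField k₀ K), Base k₀ D A e K₀ →
    (∀ U : Submodule k (Fin h → k), h ≤ Module.finrank k U + 2 * (n + 1) → WNe D e U) →
    ∀ c : Fin (n + 2) × Fin h → k, AlgebraicIndependent k₀ c → ∀ η : Fin (n + 1) → k,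
      ∃ (E : Finset k) (U : Submodule k (Fin h → k)), State (k₀ := k₀) (tau c η) E U ∧
        h ≤ Module.finrank k U + 2 * (n + 1) ∧
        ∀ V, Zero e (tau c η) U V → Nice D e K₀ (tau c η) E V

/-- FINAL (helper90), from `Chain`. -/
def Final (k₀ k K : Type u) [Field k₀] [Field k] [Field K] [Algebra k₀ k] [Algebra k K]
    [Algebra k₀ K] [IsScalarTower k₀ k K] : Prop :=
  IsAlgClosed k →
  ∀ (n h : ℕ) (D : Fin (n + 1) → Derivation k K K) (z : Fin (n + 1) → K) (A : Subalgebra k K),
    Dat D z A → ∀ (e : Fin h → K) (K₀ : IntermediateField k₀ K), Base k₀ D A e K₀ →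
    ∀ S : Submodule k K, Submodule.span k (Set.range e) = S →
    (∀ S' ≤ S, Module.finrank k S ≤ Module.finrank k S' + 2 * (n + 1) → ∃ x t, Adm D S' x t) →
    ∀ c : Fin (n + 2) × Fin h → k, AlgebraicIndependent k₀ c →
      Adm D S (cx e c) (ct e c) → Bpf S (cx e c) (ct e c) →
      ∀ η : Fin (n + 1) → k, Reached D A S (2 * (n + 1)) (cx e c) (ct e c) η

end Statements

end Pool.Agent.TG42C1
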