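import Pool.Agent.Lib.TG42C1.Defs

/-!
# TANK G, row C42-1, STEP: residues and transcendence ranks
-/

set_option autoImplicit false

open scoped Classical

namespace Pool.Agent.TG42C1

open Pool.Agent.TG (Ov ZDim IsMin valg)
open Pool.Agent.TGh33 (Wr DB)
open Pool.Agent.TGJ

universe u

section Res

variable {k K : Type u} [Field k] [Field K] [Algebra k K] {V : ValuationSubring K}

theorem val_const (hV : Ov k V) {c : k} (hc : c ≠ 0) : V.valuation (algebraMap k K c) = 1 := by
  have h1 : V.valuation (algebraMap k K c) ≤ 1 := (V.valuation_le_one_iff _).2 (hV c)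
  have h2 : V.valuation (algebraMap k K c⁻¹) ≤ 1 := (V.valuation_le_one_iff _).2 (hV c⁻¹)
  refine le_antisymm h1 ?_
  by_contra h3
  push Not at h3
  have h4 : V.valuation (algebraMap k K c * algebraMap k K c⁻¹) < 1 := by
    rw [map_mul]
    exact (mul_le_of_le_one_right' h2).trans_lt h3
  rw [← map_mul, mul_inv_cancel₀ hc, map_one, map_one] at h4
  exact lt_irrefl _ h4

theorem res_unique (hV : Ov k V) {x : K} {c c' : k}
    (h : V.valuation (x - algebraMap k K c) < 1) (h' : V.valuation (x - algebraMap k K c') < 1) :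
    c = c' := by
  by_contra hne
  have h1 := val_const hV (sub_ne_zero.2 hne)
  have h2 : algebraMap k K (c - c') = (x - algebraMap k K c') - (x - algebraMap k K c) := by
    rw [map_sub]; ring
  rw [h2] at h1
  have h3 := V.valuation.map_sub_lt h' h
  rw [h1] at h3
  exact lt_irrefl _ h3

/-- The residue map. -/
noncomputable def th (hV : ZDim k V) : valg hV.ov →ₐ[k] k where
  toFun x := (hV.res x x.2).choose
  map_one' := by
    refine res_unique hV.ov (hV.res (1 : valg hV.ov) (1 : valg hV.ov).2).choose_spec ?_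
    rw [map_one]
    change V.valuation ((1 : K) - 1) < 1
    rw [sub_self, map_zero]
    exact zero_lt_one
  map_zero' := by
    refine res_unique hV.ov (hV.res (0 : valg hV.ov) (0 : valg hV.ov).2).choose_spec ?_
    rw [map_zero]
    change V.valuation ((0 : K) - 0) < 1
    rw [sub_self, map_zero]
    exact zero_lt_one
  map_add' x y := by
    have hx := (hV.res x x.2).choose_spec
    have hy := (hV.res y y.2).choose_spec
    refine res_unique hV.ov (hV.res (x + y : valg hV.ov) (x + y).2).choose_spec ?_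
    have h1 : ((x + y : valg hV.ov) : K) - algebraMap k K ((hV.res x x.2).choose +
        (hV.res y y.2).choose) = ((x : K) - algebraMap k K (hV.res x x.2).choose) +
        ((y : K) - algebraMap k K (hV.res y y.2).choose) := by
      rw [map_add, AddMemClass.coe_add]; ring
    rw [h1]
    exact V.valuation.map_add_lt hx hy
  map_mul' x y := by
    have hx := (hV.res x x.2).choose_spec
    have hy := (hV.res y y.2).choose_spec
    refine res_unique hV.ov (hV.res (x * y : valg hV.ov) (x * y).2).choose_spec ?_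
    have h1 : ((x * y : valg hV.ov) : K) - algebraMap k K ((hV.res x x.2).choose *
        (hV.res y y.2).choose) = ((x : K) - algebraMap k K (hV.res x x.2).choose) * (y : K) +
        algebraMap k K (hV.res x x.2).choose *
          ((y : K) - algebraMap k K (hV.res y y.2).choose) := by
      rw [map_mul, MulMemClass.coe_mul]; ring
    rw [h1]
    refine V.valuation.map_add_lt ?_ ?_
    · rw [map_mul]
      exact (mul_le_of_le_one_right' ((V.valuation_le_one_iff _).2 y.2)).trans_lt hx
    · rw [map_mul]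
      exact (mul_le_of_le_one_left' ((V.valuation_le_one_iff _).2 (hV.ov _))).trans_lt hy
  commutes' c := by
    refine res_unique hV.ov (hV.res (algebraMap k (valg hV.ov) c)
      (algebraMap k (valg hV.ov) c).2).choose_spec ?_
    change V.valuation (algebraMap k K c - algebraMap k K c) < 1
    rw [sub_self, map_zero]
    exact zero_lt_one

theorem th_spec (hV : ZDim k V) (x : valg hV.ov) :
    V.valuation ((x : K) - algebraMap k K (th hV x)) < 1 := (hV.res x x.2).choose_spec

theorem th_eq_zero_iff (hV : ZDim k V) (x : valg hV.ov) :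
    th hV x = 0 ↔ V.valuation (x : K) < 1 := by
  constructor
  · intro h
    have h1 := th_spec hV x
    rwa [h, map_zero, sub_zero] at h1
  · intro h
    refine res_unique hV.ov (th_spec hV x) ?_
    rwa [map_zero, sub_zero]

theorem th_ne_zero_iff (hV : ZDim k V) (x : valg hV.ov) :
    th hV x ≠ 0 ↔ V.valuation (x : K) = 1 := by
  rw [Ne, th_eq_zero_iff, not_lt]
  exact ⟨fun h => le_antisymm ((V.valuation_le_one_iff _).2 x.2) h, fun h => h.ge⟩

end Res

section Rank

variable {F L L' R : Type u} [Field F] [Field L] [Field L'] [CommRing R] [Algebra F L]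
  [Algebra F L'] [Algebra F R]

/-- The rank does not grow under a homomorphism. -/
theorem frk_le_of_hom (ψ : R →ₐ[F] L) (hψ : Function.Injective ψ) (φ : R →ₐ[F] L')
    (T : Finset L) (T' : Finset L') (h : ∀ r ∈ T', ∃ a : R, ψ a ∈ T ∧ φ a = r) :
    frk F T' ≤ frk F T ∧ (frk F T' = frk F T → ∃ b : Fin (frk F T) → R,
      AlgebraicIndependent F (φ ∘ b) ∧ (∀ i, ψ (b i) ∈ T) ∧
      ∀ a ∈ T, IsAlgebraic (IntermediateField.adjoin F (Set.range (ψ ∘ b))) a) := by
  obtain ⟨b, hbT, hbc, hbi, -⟩ := exists_basis F T'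
  choose g hg using fun r : b => h r (hbT r.2)
  have hgi : AlgebraicIndependent F (φ ∘ g) := by
    have h1 : φ ∘ g = ((↑) : b → L') := funext fun r => (hg r).2
    rw [h1]
    exact hbi
  have hψg : AlgebraicIndependent F (ψ ∘ g) := (hgi.of_comp φ).map' hψ
  let ε : Fin b.card ≃ b := b.equivFin.symm
  have hψgε : AlgebraicIndependent F ((ψ ∘ g) ∘ ε) := hψg.comp ε ε.injective
  have hrk := (algebraicIndependent_iff_frk F _).1 hψgε
  rw [Fintype.card_fin] at hrk
  have hsub : Finset.univ.image ((ψ ∘ g) ∘ ε) ⊆ T := by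
    intro a ha
    obtain ⟨i, -, rfl⟩ := Finset.mem_image.1 ha
    exact (hg (ε i)).1
  have hle : frk F T' ≤ frk F T := by
    rw [← hbc, ← hrk]
    exact frk_mono F hsub
  refine ⟨hle, fun heq => ?_⟩
  have hcard : b.card = frk F T := hbc.trans heq
  refine ⟨fun i => g (ε (Fin.cast hcard.symm i)), ?_, fun i => (hg _).1, ?_⟩
  · exact (hgi.comp ε ε.injective).comp (Fin.cast hcard.symm) (Fin.cast_injective _)
  · have h2 : frk F (Finset.univ.image ((ψ ∘ g) ∘ ε) ∪ T) =
        frk F (Finset.univ.image ((ψ ∘ g) ∘ ε)) := by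
      rw [Finset.union_eq_right.2 hsub, hrk, hcard]
    have h3 := (frk_union_eq_iff F _ _).1 h2
    intro a ha
    have h4 := h3 a ha
    have h5 : ((Finset.univ.image ((ψ ∘ g) ∘ ε) : Finset L) : Set L) =
        Set.range (ψ ∘ fun i => g (ε (Fin.cast hcard.symm i))) := by
      ext y
      simp only [Finset.coe_image, Finset.coe_univ, Set.image_univ, Set.mem_range,
        Function.comp_apply]
      constructor
      · rintro ⟨i, hi⟩
        exact ⟨Fin.cast hcard i, by simpa using hi⟩
      · rintro ⟨i, hi⟩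
        exact ⟨Fin.cast hcard.symm i, hi⟩
    rwa [h5] at h4

end Rank

section Triv

variable {k₀ k K : Type u} [Field k₀] [Field k] [Field K] [Algebra k₀ k] [Algebra k K]
  [Algebra k₀ K] [IsScalarTower k₀ k K] {V : ValuationSubring K}

/-- A valuation ring is trivial on the algebraic closure of a field generated by elements with
algebraically independent residues. -/
theorem triv_of_indep (hV : ZDim k V) {ι : Type*} (b : ι → valg hV.ov)
    (hb : AlgebraicIndependent k₀ (th hV ∘ b)) {a : K} (ha0 : a ≠ 0)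
    (ha : IsAlgebraic (IntermediateField.adjoin k₀ (Set.range fun i => (b i : K))) a) :
    V.valuation a = 1 := by
  set M := IntermediateField.adjoin k₀ (Set.range fun i => (b i : K)) with hM
  have hev : ∀ Q : MvPolynomial ι k₀, MvPolynomial.aeval (fun i => (b i : K)) Q ∈ V ∧
      (Q ≠ 0 → V.valuation (MvPolynomial.aeval (fun i => (b i : K)) Q) = 1) := by
    intro Q
    have h1 : MvPolynomial.aeval (fun i => (b i : K)) Q =
        ((MvPolynomial.aeval b Q : valg hV.ov) : K) := by
      have h2 := MvPolynomial.comp_aeval_apply b (((valg hV.ov).val).restrictScalars k₀) Q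
      exact h2.symm
    rw [h1]
    refine ⟨(MvPolynomial.aeval b Q : valg hV.ov).2, fun hQ => ?_⟩
    rw [← th_ne_zero_iff hV]
    intro h3
    apply hQ
    apply hb
    rw [map_zero]
    have h4 := MvPolynomial.comp_aeval_apply b ((th hV).restrictScalars k₀) Q
    exact h4.symm.trans h3
  have hMV : ∀ x ∈ M, x ∈ V := by
    intro x hx
    obtain ⟨r, s, hrs⟩ := (IntermediateField.mem_adjoin_range_iff k₀ _ x).1 hx
    rw [hrs]
    by_cases hs : s = 0
    · rw [hs, map_zero, div_zero]; exact V.zero_mem
    · rw [← V.valuation_le_one_iff, map_div₀, (hev s).2 hs, div_one]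
      exact (V.valuation_le_one_iff _).2 (hev r).1
  have key : ∀ x : K, IsAlgebraic M x → x ∈ V := by
    intro x hx
    have h1 : IsIntegral M.toSubalgebra x := (isAlgebraic_iff_isIntegral (K := M)).1 hx
    exact TG.isIntegral_valuationSubring (R := M.toSubalgebra) hMV h1
  have h1 := key a ha
  have h2 := key a⁻¹ ha.inv
  refine le_antisymm ((V.valuation_le_one_iff _).2 h1) ?_
  have h3 := (V.valuation_le_one_iff _).2 h2
  rw [map_inv₀] at h3
  have h4 : V.valuation a ≠ 0 := (Valuation.ne_zero_iff _).2 ha0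
  exact (inv_le_one₀ (zero_lt_iff.2 h4)).1 h3

variable {n h : ℕ} {D : Fin (n + 1) → Derivation k K K} {A : Subalgebra k K} {e : Fin h → K}
  {K₀ : IntermediateField k₀ K}

/-- The rank of `K₀(E)`. -/
theorem frk_KE_le (hB : Base k₀ D A e K₀) (E : Finset k) (T : Finset K)
    (hT : ∀ a ∈ T, a ∈ KE k₀ K₀ E) : frk k₀ T ≤ frk k₀ E + (n + 1) := by
  have h1 : ∀ a ∈ T, ∃ T₀ : Finset K, (∀ x ∈ T₀, x ∈ K₀) ∧
      a ∈ IntermediateField.adjoin k₀ ((E.image (algebraMap k K) ∪ T₀ : Finset K) : Set K) := by
    intro a ha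
    obtain ⟨T₁, hT₁, haT₁⟩ := IntermediateField.exists_finset_of_mem_adjoin (hT a ha)
    refine ⟨T₁.filter fun x => x ∈ K₀, fun x hx => (Finset.mem_filter.1 hx).2, ?_⟩
    refine IntermediateField.adjoin.mono _ _ _ ?_ haT₁
    intro x hx
    rcases hT₁ hx with h2 | h2
    · obtain ⟨c, hc, rfl⟩ := h2
      simp only [Finset.coe_union, Finset.coe_image]
      exact Or.inl ⟨c, hc, rfl⟩
    · simp only [Finset.coe_union, Finset.coe_image, Finset.coe_filter]
      exact Or.inr ⟨hx, h2⟩
  choose! T₀ hT₀ hT₀' using h1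
  let T₂ : Finset K := T.biUnion T₀
  have h2 : frk k₀ T ≤ frk k₀ (E.image (algebraMap k K) ∪ T₂) := by
    refine frk_le_of_algebraic k₀ fun a ha => ?_
    have h3 : a ∈ IntermediateField.adjoin k₀
        ((E.image (algebraMap k K) ∪ T₂ : Finset K) : Set K) := by
      refine IntermediateField.adjoin.mono _ _ _ ?_ (hT₀' a ha)
      rw [Finset.coe_subset]
      exact Finset.union_subset_union_right (Finset.subset_biUnion_of_mem T₀ ha)
    exact isAlgebraic_algebraMap (⟨a, h3⟩ : IntermediateField.adjoin k₀ _)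
  have h4 := frk_union_le k₀ (E.image (algebraMap k K)) T₂
  have h5 := hB.rk T₂ fun a ha => by
    obtain ⟨x, hx, hax⟩ := Finset.mem_biUnion.1 ha
    exact hT₀ x hx a hax
  have h6 : frk k₀ (E.image (algebraMap k K)) ≤ frk k₀ E := by
    refine (frk_le_of_hom (AlgHom.id k₀ k) Function.injective_id
      (IsScalarTower.toAlgHom k₀ k K) E _ fun r hr => ?_).1
    obtain ⟨c, hc, rfl⟩ := Finset.mem_image.1 hr
    exact ⟨c, hc, rfl⟩
  omega

/-- The residues of `K₀(E)`. -/
theorem frk_res_le (hB : Base k₀ D A e K₀) (hV : ZDim k V) (E : Finset k) (R : Finset k)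
    (hR : ∀ r ∈ R, ∃ a : valg hV.ov, (a : K) ∈ KE k₀ K₀ E ∧ th hV a = r) :
    frk k₀ (E ∪ R) ≤ frk k₀ E + (n + 1) ∧
      (frk k₀ (E ∪ R) = frk k₀ E + (n + 1) → ∀ a ∈ KE k₀ K₀ E, a ≠ 0 → V.valuation a = 1) := by
  choose! g hg hg' using hR
  let T : Finset K := E.image (algebraMap k K) ∪ R.image fun r => (g r : K)
  have hTK : ∀ a ∈ T, a ∈ KE k₀ K₀ E := by
    intro a ha
    rcases Finset.mem_union.1 ha with h1 | h1
    · obtain ⟨c, hc, rfl⟩ := Finset.mem_image.1 h1
      exact IntermediateField.subset_adjoin _ _ (Or.inl ⟨c, hc, rfl⟩)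
    · obtain ⟨r, hr, rfl⟩ := Finset.mem_image.1 h1
      exact hg r hr
  have hT := frk_KE_le hB E T hTK
  obtain ⟨h1, h2⟩ := frk_le_of_hom (((valg hV.ov).val).restrictScalars k₀)
    Subtype.val_injective ((th hV).restrictScalars k₀) T (E ∪ R) (by
      intro r hr
      rcases Finset.mem_union.1 hr with h3 | h3
      · refine ⟨algebraMap k (valg hV.ov) r, ?_, (th hV).commutes r⟩
        exact Finset.mem_union_left _ (Finset.mem_image_of_mem _ h3)
      · refine ⟨g r, ?_, hg' r h3⟩
        exact Finset.mem_union_right _ (Finset.mem_image_of_mem (fun r => (g r : K)) h3))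
  refine ⟨h1.trans hT, fun heq a ha ha0 => ?_⟩
  have heq' : frk k₀ (E ∪ R) = frk k₀ T := by omega
  obtain ⟨b, hb, hbT, hbalg⟩ := h2 heq'
  refine triv_of_indep (k₀ := k₀) hV b hb ha0 ?_
  have h3 : frk k₀ (insert a T) ≤ frk k₀ E + (n + 1) := frk_KE_le hB E _ (by
    intro x hx
    rcases Finset.mem_insert.1 hx with rfl | hx
    · exact ha
    · exact hTK x hx)
  have h4 : frk k₀ (insert a T) = frk k₀ T :=
    le_antisymm (by omega) (frk_mono k₀ (Finset.subset_insert _ _))
  have h5 := (frk_insert_eq_iff k₀ T a).1 h4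
  -- `a` is algebraic over `T`, `T` is algebraic over `b`
  let b' : Fin (frk k₀ T) → K := fun i => (b i : K)
  have h6 : frk k₀ (Finset.univ.image b' ∪ T) = frk k₀ (Finset.univ.image b') := by
    refine (frk_union_eq_iff k₀ _ _).2 fun x hx => ?_
    have h7 := hbalg x hx
    have h8 : ((Finset.univ.image b' : Finset K) : Set K) =
        Set.range ((((valg hV.ov).val).restrictScalars k₀) ∘ b) := by
      simp only [Finset.coe_image, Finset.coe_univ, Set.image_univ]
      rfl
    rw [h8]
    exact h7
  have h9 : frk k₀ (insert a (Finset.univ.image b')) = frk k₀ (Finset.univ.image b') := by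
    have h10 : Finset.univ.image b' ⊆ T := by
      intro x hx
      obtain ⟨i, -, rfl⟩ := Finset.mem_image.1 hx
      exact hbT i
    rw [Finset.union_eq_right.2 h10] at h6
    have h13 := frk_mono k₀ (Finset.insert_subset_insert a h10)
    have h14 := frk_mono k₀ (Finset.subset_insert a (Finset.univ.image b'))
    omega
  have h11 := (frk_insert_eq_iff k₀ _ _).1 h9
  have h12 : ((Finset.univ.image b' : Finset K) : Set K) = Set.range fun i => (b i : K) := by
    simp only [Finset.coe_image, Finset.coe_univ, Set.image_univ]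
    rfl
  rwa [h12] at h11

end Triv

end Pool.Agent.TG42C1
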